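import Pool.Agent.E8helper19.EN.Stm

/-! Project EN, piece `S_IBP`: integration by parts. -/

set_option autoImplicit false
open MeasureTheory Filter Topology Complex Set
open scoped ContDiff

namespace Pool.Agent.E8helper33.EN

open Pool.Agent.E8helper19.EN

theorem integ {S : Set ℂ} (hS : IsCompact S) {f : ℂ → ℝ} (hf : ContinuousOn f S)
    (h0 : ∀ z, z ∉ S → f z = 0) : Integrable f :=
  (hf.integrableOn_compact hS).integrable_of_forall_notMem_eq_zero h0

theorem cont_fd {Ω : Set ℂ} (hΩ : IsOpen Ω) {F : ℂ → ℝ} (hF : ContDiffOn ℝ 1 F Ω) (v : ℂ) :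
    ContinuousOn (fun z => fderiv ℝ F z v) Ω :=
  (hF.continuousOn_fderiv_of_isOpen hΩ le_rfl).clm_apply continuousOn_const

/-- integration by parts against a test function -/
theorem ibp {Ω : Set ℂ} (hΩ : IsOpen Ω) {φ F : ℂ → ℝ} (hφ : ContDiff ℝ 1 φ)
    (hc : HasCompactSupport φ) (hs : tsupport φ ⊆ Ω) (hF : ContDiffOn ℝ 1 F Ω) (v : ℂ) :
    Integrable (fun z => φ z * fderiv ℝ F z v) ∧ Integrable (fun z => fderiv ℝ φ z v * F z) ∧
      ∫ z, φ z * fderiv ℝ F z v = - ∫ z, fderiv ℝ φ z v * F z := by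
  have hS : IsCompact (tsupport φ) := hc
  have z0 : ∀ z, z ∉ tsupport φ → φ z = 0 := fun z hz => image_eq_zero_of_notMem_tsupport hz
  have z1 : ∀ z, z ∉ tsupport φ → fderiv ℝ φ z v = 0 := fun z hz => by
    rw [fderiv_of_notMem_tsupport ℝ hz]
    rfl
  have cφ : Continuous φ := hφ.continuous
  have cφ' : Continuous fun z => fderiv ℝ φ z v :=
    (hφ.continuous_fderiv (by norm_num)).clm_apply continuous_const
  have cF : ContinuousOn F (tsupport φ) := hF.continuousOn.mono hs
  have cF' : ContinuousOn (fun z => fderiv ℝ F z v) (tsupport φ) := (cont_fd hΩ hF v).mono hs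
  have i1 : Integrable (fun z => φ z * fderiv ℝ F z v) :=
    integ hS (cφ.continuousOn.mul cF') fun z hz => by rw [z0 z hz, zero_mul]
  have i2 : Integrable (fun z => fderiv ℝ φ z v * F z) :=
    integ hS (cφ'.continuousOn.mul cF) fun z hz => by rw [z1 z hz, zero_mul]
  have i3 : Integrable (fun z => φ z * F z) :=
    integ hS (cφ.continuousOn.mul cF) fun z hz => by rw [z0 z hz, zero_mul]
  refine ⟨i1, i2, integral_mul_fderiv_eq_neg_fderiv_mul_of_integrable i2 i1 i3
    (fun z _ => (hφ.differentiable (by norm_num)) z) fun z hz => ?_⟩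
  exact (hF.contDiffAt (hΩ.mem_nhds (hs hz))).differentiableAt (by norm_num)

theorem t_IBP : S_IBP := by
  intro Ω ρ u φ l hΩ hρ hu heq hφ hc hs G hG
  have hS : IsCompact (tsupport φ) := hc
  have z0 : ∀ z, z ∉ tsupport φ → φ z = 0 := fun z hz => image_eq_zero_of_notMem_tsupport hz
  have le1 : (1 : WithTop ℕ∞) ≤ ∞ := by exact_mod_cast le_top
  have le2 : (1 : WithTop ℕ∞) + 1 ≤ ∞ := by
    rw [one_add_one_eq_two]
    exact WithTop.coe_le_coe.mpr (le_top : (2 : ℕ∞) ≤ ⊤)
  have hu1 : ContDiffOn ℝ 1 u Ω := hu.of_le le1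
  -- derivatives of `u`
  have hdu : ∀ v : ℂ, ContDiffOn ℝ 1 (fun z => fderiv ℝ u z v) Ω := fun v =>
    (hu.fderiv_of_isOpen hΩ le2).clm_apply contDiffOn_const
  have hua : ∀ z ∈ Ω, DifferentiableAt ℝ u z := fun z hz =>
    (hu1.contDiffAt (hΩ.mem_nhds hz)).differentiableAt (by norm_num)
  have hdua : ∀ v : ℂ, ∀ z ∈ Ω, DifferentiableAt ℝ (fun w => fderiv ℝ u w v) z := fun v z hz =>
    ((hdu v).contDiffAt (hΩ.mem_nhds hz)).differentiableAt (by norm_num)
  have hGd : ∀ x, HasDerivAt G (deriv G x) x := fun x =>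
    ((hG.differentiable (by simp)) x).hasDerivAt
  -- the primitive
  obtain ⟨P, hP⟩ : ∃ P : ℝ → ℝ, P = fun x => ∫ t in (0 : ℝ)..x, G t := ⟨_, rfl⟩
  have hPd : ∀ x, HasDerivAt P (G x) x := by
    intro x
    rw [hP]
    exact intervalIntegral.integral_hasDerivAt_right (hG.continuous.intervalIntegrable _ _)
      (hG.continuous.stronglyMeasurableAtFilter _ _) hG.continuous.continuousAt
  have hP1 : ContDiff ℝ 1 P := by
    rw [contDiff_one_iff_deriv]
    refine ⟨fun x => (hPd x).differentiableAt, ?_⟩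
    have : deriv P = G := funext fun x => (hPd x).deriv
    rw [this]
    exact hG.continuous
  -- the test functions
  have hφ1 : ContDiff ℝ 1 φ := hφ.of_le le1
  have hdφ : ∀ v : ℂ, ContDiff ℝ 1 (fun z => fderiv ℝ φ z v) := fun v =>
    (hφ.fderiv_right le2).clm_apply contDiff_const
  have hsub : ∀ v : ℂ, tsupport (fun z => fderiv ℝ φ z v) ⊆ tsupport φ := by
    intro v
    refine closure_minimal ?_ (isClosed_tsupport φ)
    intro z hz
    by_contra h
    refine hz ?_
    show fderiv ℝ φ z v = 0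
    rw [fderiv_of_notMem_tsupport ℝ h]
    rfl
  have hcd : ∀ v : ℂ, HasCompactSupport (fun z => fderiv ℝ φ z v) := fun v =>
    hS.of_isClosed_subset (isClosed_tsupport _) (hsub v)
  have hsd : ∀ v : ℂ, tsupport (fun z => fderiv ℝ φ z v) ⊆ Ω := fun v => (hsub v).trans hs
  -- the two integrations by parts
  have hFv : ∀ v : ℂ, ContDiffOn ℝ 1 (fun z => G (u z) * fderiv ℝ u z v) Ω := fun v =>
    ((hG.of_le le1).comp_contDiffOn hu1).mul (hdu v)
  have hPu : ContDiffOn ℝ 1 (fun z => P (u z)) Ω := hP1.comp_contDiffOn hu1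
  have e1 : ∀ v : ℂ, ∀ z ∈ Ω, fderiv ℝ (fun z => G (u z) * fderiv ℝ u z v) z v =
      deriv G (u z) * fderiv ℝ u z v ^ 2 + G (u z) * fderiv ℝ (fun w => fderiv ℝ u w v) z v := by
    intro v z hz
    have h1 : HasFDerivAt (fun w => G (u w)) (deriv G (u z) • fderiv ℝ u z) z :=
      (hGd (u z)).comp_hasFDerivAt z (hua z hz).hasFDerivAt
    rw [fderiv_fun_mul h1.differentiableAt (hdua v z hz), h1.fderiv]
    simp only [add_apply, smul_apply, smul_eq_mul]
    ring
  have e2 : ∀ v : ℂ, ∀ z ∈ Ω, fderiv ℝ (fun z => P (u z)) z v = G (u z) * fderiv ℝ u z v := by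
    intro v z hz
    have h1 : HasFDerivAt (fun w => P (u w)) (G (u z) • fderiv ℝ u z) z :=
      (hPd (u z)).comp_hasFDerivAt z (hua z hz).hasFDerivAt
    rw [h1.fderiv]
    simp only [smul_apply, smul_eq_mul]
  have k : ∀ v : ℂ,
      Integrable (fun z => φ z * fderiv ℝ (fun z => G (u z) * fderiv ℝ u z v) z v) ∧
      Integrable (fun z => fderiv ℝ (fun w => fderiv ℝ φ w v) z v * P (u z)) ∧
      ∫ z, φ z * fderiv ℝ (fun z => G (u z) * fderiv ℝ u z v) z v =
        ∫ z, fderiv ℝ (fun w => fderiv ℝ φ w v) z v * P (u z) := by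
    intro v
    obtain ⟨a1, a2, a3⟩ := ibp hΩ hφ1 hc hs (hFv v) v
    obtain ⟨b1, b2, b3⟩ := ibp hΩ (hdφ v) (hcd v) (hsd v) hPu v
    refine ⟨a1, b2, ?_⟩
    have h : ∫ z, fderiv ℝ φ z v * (G (u z) * fderiv ℝ u z v) =
        ∫ z, fderiv ℝ φ z v * fderiv ℝ (fun z => P (u z)) z v := by
      refine integral_congr_ae (Filter.Eventually.of_forall fun z => ?_)
      show fderiv ℝ φ z v * (G (u z) * fderiv ℝ u z v) =
        fderiv ℝ φ z v * fderiv ℝ (fun z => P (u z)) z v
      by_cases hz : z ∈ Ω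
      · rw [e2 v z hz]
      · have : fderiv ℝ φ z = 0 := fderiv_of_notMem_tsupport ℝ fun h => hz (hs h)
        rw [this]
        simp
    rw [a3, h, b3, neg_neg]
  -- integrability
  have hcg : ContinuousOn (gsq u) (tsupport φ) := by
    have h1 := ((cont_fd hΩ hu1 1).mono hs)
    have h2 := ((cont_fd hΩ hu1 I).mono hs)
    exact (h1.pow 2).add (h2.pow 2)
  have hcu : ContinuousOn u (tsupport φ) := hu1.continuousOn.mono hs
  have hG' : Continuous (deriv G) := hG.continuous_deriv (by simp)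
  have j1 : Integrable (fun z => φ z * (deriv G (u z) * gsq u z)) :=
    integ hS (hφ1.continuous.continuousOn.mul ((hG'.comp_continuousOn hcu).mul hcg))
      fun z hz => by rw [z0 z hz, zero_mul]
  have j2 : Integrable (fun z => φ z * (ρ z * (u z * G (u z)))) :=
    integ hS (hφ1.continuous.continuousOn.mul ((hρ.continuousOn.mono hs).mul
      (hcu.mul (hG.continuous.comp_continuousOn hcu)))) fun z hz => by rw [z0 z hz, zero_mul]
  obtain ⟨a1, a2, a3⟩ := k 1
  obtain ⟨b1, b2, b3⟩ := k I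
  have j3 : (fun z => lapl φ z * ∫ t in (0 : ℝ)..u z, G t) = fun z =>
      fderiv ℝ (fun w => fderiv ℝ φ w 1) z 1 * P (u z) +
        fderiv ℝ (fun w => fderiv ℝ φ w I) z I * P (u z) := by
    funext z
    rw [hP]
    unfold lapl
    ring
  refine ⟨j1, j2, ?_, ?_⟩
  · rw [j3]
    exact a2.add b2
  · rw [j3, integral_add a2 b2, ← a3, ← b3, ← integral_add a1 b1, ← integral_const_mul,
      ← sub_eq_iff_eq_add', ← integral_sub j1 (j2.const_mul l)]
    refine integral_congr_ae (Filter.Eventually.of_forall fun z => ?_)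
    show φ z * (deriv G (u z) * gsq u z) - l * (φ z * (ρ z * (u z * G (u z)))) =
      φ z * fderiv ℝ (fun z => G (u z) * fderiv ℝ u z 1) z 1 +
        φ z * fderiv ℝ (fun z => G (u z) * fderiv ℝ u z I) z I
    by_cases hz : z ∈ Ω
    · rw [e1 1 z hz, e1 I z hz]
      have h := heq z hz
      unfold lapl at h
      unfold gsq
      linear_combination (-(φ z * G (u z))) * h
    · rw [z0 z fun h => hz (hs h)]
      ring

end Pool.Agent.E8helper33.EN
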